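import Pool.Agent.H.MP_97cbc3_al.E

namespace Pool.Agent.Results.MP_364315_al.Yes

open CategoryTheory

universe u

/-- `neg w P` is the class `P^w`: the letters of `w` are applied from left to right,
`true` is the letter `l` and `false` is the letter `r`. -/
def neg (w : FreeMonoid Bool) (P : MorphismProperty TopCat.{u}) : MorphismProperty TopCat.{u} :=
  w.toList.foldl (fun Q b => cond b Q.llp Q.rlp) P

/-- The relations `lrl = l` and `rlr = r`. -/
def rels (a b : FreeMonoid Bool) : Prop :=
  (a = .of true * .of false * .of true ∧ b = .of true) ∨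
    (a = .of false * .of true * .of false ∧ b = .of false)

theorem result :
    PresentedMonoid.mk rels (.of true ^ 6) ≠ PresentedMonoid.mk rels (.of true ^ 8) ∧
      ∀ P : MorphismProperty TopCat.{u}, neg (.of true ^ 6) P = neg (.of true ^ 8) P := by
  refine ⟨fun h => ?_, fun P => Pool.Agent.H.MP_97cbc3_al.neg_l6 P⟩
  let f : Bool → Multiplicative ℤ := fun b => Multiplicative.ofAdd (cond b 1 (-1))
  have hf : ∀ a b, rels a b → FreeMonoid.lift f a = FreeMonoid.lift f b := by
    rintro a b (⟨rfl, rfl⟩ | ⟨rfl, rfl⟩) <;> decide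
  have h1 : FreeMonoid.lift f (.of true ^ 6) = FreeMonoid.lift f (.of true ^ 8) :=
    congrArg (PresentedMonoid.lift f hf) h
  clear h hf
  revert h1
  decide

end Pool.Agent.Results.MP_364315_al.Yes
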